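import Pool.Agent.Helper39.LIP.Tcn
import Pool.Agent.Helper3.LF.Win
import Pool.Agent.Helper3.SG.Def

/-! Windows of labels without leak at the condition of the window, lines of a factor: the height has full entropy below
the window; Remez inequality along the line of the factor; velocity of affine forms. (LIP, row LINE) -/

set_option autoImplicit false

namespace Pool.Agent.Helper93.LIP

open Finset Filter Topology Matrix Pool.Agent.Helper69.RK Pool.Agent.Helper31.EC Pool.Agent.Helper40.EL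
open Pool.Agent.Helper31.EC.Sp
open Pool.Agent.Helper95.LF Pool.Agent.Helper89.LX Pool.Agent.Helper3.LF Pool.Agent.Helper3.SG
open Pool.Agent.Helper39.LIP

noncomputable section

variable {S : Sp} {m q : ℕ} {s : Sys S m} {s' : Sys S q}

/-- full entropy of the height below the window, given a label without leak at the condition of the window and the
line of the factor -/
theorem fac_ent (hf : Fac s s') {c : ℝ} (h0 : 0 ≤ c) (h1 : c ≤ 1) {l : Lab S}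
    (hl : Nul S (fun k => (l k).leak (cA s c k))) :
    1 - c ≤ ul (l.sp.rt (fun k => Setoid.ker ((l.pj.vv s'.t).cellv 1 k)) (wB s' c l)) := by
  have e1 : h s.T (lA s c) = 1 - c := h_T_A s h0 h1
  have e2 : h s.T (lA s c) = ul (S.rt (fun k => Setoid.ker (s.t.cellv 1 k))
      (fun k => Setoid.ker (s.a.cellv 1 k) ⊓ Setoid.ker (s.x.cellv 1 k) ⊓ Setoid.ker (s.t.cellv c k))) := by
    rw [← cl_A]
    have h3 : s.T = Sp.cl (s.It 1) := (s.cl_It 1).symm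
    rw [h3, Sp.h_cl]
    rfl
  have e3 : ul (S.rt
      (fun k => Setoid.ker (s'.a.cellv 1 k) ⊓ Setoid.ker (s'.x.cellv 1 k) ⊓ Setoid.ker (s'.t.cellv c k))
      (fun k => Setoid.ker (s.a.cellv 1 k) ⊓ Setoid.ker (s.x.cellv 1 k) ⊓ Setoid.ker (s.t.cellv c k))) = 0 := by
    have h3 : h (lA s' c) (lA s c) = 0 := h_zero (hf.A c)
    rw [← cl_A, ← cl_A, Sp.h_cl] at h3
    exact h3
  have hU1 : UB (S.rt (fun k => Setoid.ker (s.t.cellv 1 k))
      (fun k => Setoid.ker (s.a.cellv 1 k) ⊓ Setoid.ker (s.x.cellv 1 k) ⊓ Setoid.ker (s.t.cellv c k))) :=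
    Sp.UB_rt (s.It 1) _
  have hU3 : UB (S.rt
      (fun k => Setoid.ker (s'.a.cellv 1 k) ⊓ Setoid.ker (s'.x.cellv 1 k) ⊓ Setoid.ker (s'.t.cellv c k))
      (fun k => Setoid.ker (s.a.cellv 1 k) ⊓ Setoid.ker (s.x.cellv 1 k) ⊓ Setoid.ker (s.t.cellv c k))) :=
    Sp.UB_rt (Inf.sup (Inf.sup (s'.Ia 1) (s'.Ix 1)) (s'.It c)) _
  have hU2 : UB (l.sp.rt (fun k => Setoid.ker ((l.pj.vv s'.t).cellv 1 k)) (wB s' c l)) :=
    Sp.UB_rt ((l.pj.vv s'.t).bdd 1).toInf _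
  have hlk : Tendsto (fun k => (l k).leak (cA s c k) / (S.F k).n) UF (𝓝 0) := hl
  have t1 := ((ul_tendsto hU1).sub hlk).sub (ul_tendsto hU3)
  rw [← e2, e1, e3, sub_zero, sub_zero] at t1
  refine le_of_tendsto_of_tendsto t1 (ul_tendsto hU2) (Eventually.of_forall fun k => ?_)
  have hn := (S.F k).pos
  unfold Sp.rt
  beta_reduce
  rw [sp_n, ← sub_div, ← sub_div]
  apply div_le_div_of_nonneg_right _ hn.le
  -- finite inequality
  set A : Setoid (S.F k).Ω := Setoid.ker (s.a.cellv 1 k) ⊓ Setoid.ker (s.x.cellv 1 k) ⊓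
    Setoid.ker (s.t.cellv c k) with hA
  set A' : Setoid (S.F k).Ω := Setoid.ker (s'.a.cellv 1 k) ⊓ Setoid.ker (s'.x.cellv 1 k) ⊓
    Setoid.ker (s'.t.cellv c k) with hA'
  set T' : Setoid (S.F k).Ω := Setoid.ker (s.t.cellv 1 k) with hT'
  have f0 : (Setoid.ker ((l.pj.vv s'.t).cellv 1 k)) = Setoid.comap (l k).p.π T' := by
    rw [cellv_pj, hf.ft]
  have f1 : (S.F k).e T' (A ⊓ (S.F k).Z) = h (fc T') (fc A) := (h_fc _ _).symm
  have f1' : (S.F k).e A' (A ⊓ (S.F k).Z) = h (fc A') (fc A) := (h_fc _ _).symm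
  have f2 : (l.sp.F k).e (Setoid.ker ((l.pj.vv s'.t).cellv 1 k)) (wB s' c l k ⊓ (l.sp.F k).Z) =
      h ((l k).p.map (fc T')) ((l k).v ⊔ (l k).p.map (fc A')) := by
    rw [f0]
    exact (h_fc _ _).symm
  rw [f1, f1', f2]
  have f3 : (l k).leak (cA s c k) = I (l k).v (l k).p.top ((l k).p.map (fc A)) := rfl
  have f4 : I (l k).v ((l k).p.map (fc T')) ((l k).p.map (fc A)) ≤
      I (l k).v (l k).p.top ((l k).p.map (fc A)) := by
    apply I_mono_right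
    exact ((l k).p.map_le_top _).trans le_sup_left
  have f5 : I (l k).v ((l k).p.map (fc T')) ((l k).p.map (fc A)) =
      h ((l k).p.map (fc T')) ((l k).p.map (fc A)) -
      h ((l k).p.map (fc T')) ((l k).v ⊔ (l k).p.map (fc A)) := by
    rw [I_comm, I_eq]
  have f6 := (l k).p.h_map (fc T') (fc A)
  have f7 := (l k).p.h_map (fc A') (fc A)
  have f8 := h_triangle ((l k).p.map (fc T')) ((l k).p.map (fc A')) ((l k).v ⊔ (l k).p.map (fc A))
  have f9 : h ((l k).p.map (fc T')) ((l k).p.map (fc A') ⊔ ((l k).v ⊔ (l k).p.map (fc A))) ≤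
      h ((l k).p.map (fc T')) ((l k).v ⊔ (l k).p.map (fc A')) := by
    apply h_anti
    exact sup_le (le_sup_left.trans le_sup_right) le_sup_left
  have f10 : h ((l k).p.map (fc A')) ((l k).v ⊔ (l k).p.map (fc A)) ≤
      h ((l k).p.map (fc A')) ((l k).p.map (fc A)) := h_anti le_sup_right
  rw [f3]
  linarith

/-- REMEZ for `phi` of forms on labels without leak at the condition of the window, along the lines of a factor -/
theorem line_phi_b (hf : Fac s s') {D : ℕ} {c : ℝ} (h0 : 0 ≤ c) (h1 : c < 1) {l : Lab S}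
    (hl : Nul S (fun k => (l k).leak (cA s c k)))
    (A : ∀ k, (l k).T.Ω → Matrix (Mon (q + 1) D) (Mon (q + 1) D) ℝ)
    (hA : ∀ᶠ k in UF, ∀ ω, (l k).T.μ ω ≠ 0 → PdM (A k ω))
    (hV : ∀ᶠ k in UF, ∀ ω ω', (l k).T.μ ω ≠ 0 → (l k).T.μ ω' ≠ 0 → (l k).V ω ω' → (l k).T.Z ω ω' → A k ω = A k ω')
    (b : ℝ) (hb : 0 ≤ b) (L : ℕ → ℝ) (hL : S.Sub L) :
    ∃ K' : ℕ → ℝ, S.Sub K' ∧ Sp.Typ (S := l.sp) (fun k (ω : (l k).T.Ω) =>
      ∀ r, |r - s.t.v k ((l k).p.π ω) 0| ≤ L k * S.dl (c - b) k →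
      phi (S.dl 1 k) (A k ω) (pl (s'.a.v k ((l k).p.π ω)) (s'.x.v k ((l k).p.π ω)) r) ≤
        K' k * 2 ^ ((2 * D : ℕ) * b * (S.F k).n) * sph s' D k ((l k).p.π ω) (A k ω)) := by
  obtain ⟨K', hK', hT⟩ := phi_rem (S := l.sp) (l.pj.vv s'.a) (l.pj.vv s'.x) (l.pj.vv s'.t) c 1 h0 h1 (wB s' c l) A
    hA (fun _ => 1) (l.sp.Sub_const zero_le_one) (by
      filter_upwards [hV] with k hk ω ω' a a' e z
      exact ⟨hk ω' ω a' a e.1 z, wB_close k ω ω' e⟩) (fac_ent hf h0 h1.le hl) b hb L ((sp_Sub l).mpr hL)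
  refine ⟨K', (sp_Sub l).mp hK', ?_⟩
  refine squeeze_zero' (Eventually.of_forall fun k => Sp.mass_res_nonneg (S := l.sp) k _) ?_ hT
  refine Eventually.of_forall fun k => ?_
  apply mass_res_mono _ _ _ (l.sp.F k).nn
  intro ω hω hE hcon
  apply hE
  intro r hr
  have h2 := hcon r (by
    rw [sp_dl]
    have h3 : (l.pj.vv s'.t).v k ω 0 = s.t.v k ((l k).p.π ω) 0 := by
      rw [hf.ft]
      rfl
    rw [h3]
    exact hr)
  rw [sp_dl, sp_n] at h2
  exact h2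

/-- LINE: the form at all points of the line of the factor in the window -/
theorem line_phi (hf : Fac s s') {D : ℕ} {c : ℝ} (h0 : 0 ≤ c) (h1 : c < 1) {l : Lab S}
    (hl : Nul S (fun k => (l k).leak (cA s c k)))
    (A : ∀ k, (l k).T.Ω → Matrix (Mon (q + 1) D) (Mon (q + 1) D) ℝ)
    (hA : ∀ᶠ k in UF, ∀ ω, (l k).T.μ ω ≠ 0 → PdM (A k ω))
    (hV : ∀ᶠ k in UF, ∀ ω ω', (l k).T.μ ω ≠ 0 → (l k).T.μ ω' ≠ 0 → (l k).V ω ω' → (l k).T.Z ω ω' → A k ω = A k ω')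
    (L : ℕ → ℝ) (hL : S.Sub L) :
    ∃ K' : ℕ → ℝ, S.Sub K' ∧ Sp.Typ (S := l.sp) (fun k (ω : (l k).T.Ω) =>
      ∀ r, |r - s.t.v k ((l k).p.π ω) 0| ≤ L k * S.dl c k →
      phi (S.dl 1 k) (A k ω) (pl (s'.a.v k ((l k).p.π ω)) (s'.x.v k ((l k).p.π ω)) r) ≤
        K' k * sph s' D k ((l k).p.π ω) (A k ω)) := by
  obtain ⟨K', hK', hT⟩ := line_phi_b hf h0 h1 hl A hA hV 0 le_rfl L hL
  refine ⟨K', hK', ?_⟩
  refine squeeze_zero' (Eventually.of_forall fun k => Sp.mass_res_nonneg (S := l.sp) k _) ?_ hT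
  refine Eventually.of_forall fun k => ?_
  apply mass_res_mono _ _ _ (l.sp.F k).nn
  intro ω hω hE hcon
  apply hE
  intro r hr
  have h2 := hcon r (by rw [sub_zero]; exact hr)
  rw [mul_zero, zero_mul, Real.rpow_zero, mul_one] at h2
  exact h2

/-! ### values and velocities of forms -/

/-- the value of a form at the corner of a cell -/
theorem qf_vv_le {N D : ℕ} {A : Matrix (Mon N D) (Mon N D) ℝ} (h0 : ∀ v, 0 ≤ qf A v) (r : ℝ) (p : Fin N → ℝ) :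
    qf A (vv p) ≤ phi r A p := by
  have h1 : nodp D p r (fun _ => 0) = p := by
    funext i
    unfold nodp nod
    simp
  have h2 : qf A (vv (nodp D p r (fun _ => 0))) ≤ phi r A p :=
    Finset.single_le_sum (f := fun j : Fin N → Fin (D + 1) => vv (nodp D p r j) ⬝ᵥ (A *ᵥ vv (nodp D p r j)))
      (fun j _ => h0 _) (Finset.mem_univ (fun _ : Fin N => (0 : Fin (D + 1))))
  rw [h1] at h2
  exact h2

theorem qf_sub_le {ι : Type} [Fintype ι] {A : Matrix ι ι ℝ} (h0 : ∀ v, 0 ≤ qf A v) (x y : ι → ℝ) :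
    qf A (x - y) ≤ 2 * (qf A x + qf A y) := by
  have h1 := h0 (x + y)
  have h2 : qf A (x - y) + qf A (x + y) = 2 * (qf A x + qf A y) := by
    unfold qf
    rw [Matrix.mulVec_sub, Matrix.mulVec_add, sub_dotProduct, add_dotProduct, dotProduct_sub, dotProduct_sub,
      dotProduct_add, dotProduct_add]
    ring
  linarith

/-- shift of the parameter of a line -/
theorem pl_add {m : ℕ} (a x : Fin m → ℝ) (u d : ℝ) : pl a x (u + d) = pl a x u + d • (Fin.cons 1 x : Fin (m + 1) → ℝ) := by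
  funext i
  refine Fin.cases ?_ (fun j => ?_) i
  · rw [pl_zero, Pi.add_apply, pl_zero, Pi.smul_apply, Fin.cons_zero, smul_eq_mul, mul_one]
  · rw [pl_succ, Pi.add_apply, pl_succ, Pi.smul_apply, Fin.cons_succ, smul_eq_mul]
    ring

/-- the velocity of the line is small if the form is bounded at two points -/
theorem vel_le {m : ℕ} {A : Matrix (Mon (m + 1) 1) (Mon (m + 1) 1) ℝ} (h0 : ∀ v, 0 ≤ qf A v) (a x : Fin m → ℝ)
    (u d K : ℝ) (hd : 0 < d) (h1 : qf A (vv (pl a x u)) ≤ K) (h2 : qf A (vv (pl a x (u + d))) ≤ K) :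
    qf A (gv (Fin.cons 1 x : Fin (m + 1) → ℝ)) ≤ 4 * K * (d⁻¹) ^ 2 := by
  have e1 : (vv (pl a x (u + d)) : Mon (m + 1) 1 → ℝ) - vv (pl a x u) =
      d • gv (Fin.cons 1 x : Fin (m + 1) → ℝ) := by
    rw [pl_add, vv_gv, gv_smul, add_sub_cancel_left]
  have e2 := qf_sub_le h0 (vv (pl a x (u + d)) : Mon (m + 1) 1 → ℝ) (vv (pl a x u))
  rw [e1, qf_smul_vec] at e2
  have e3 : d ^ 2 * qf A (gv (Fin.cons 1 x : Fin (m + 1) → ℝ)) ≤ 4 * K := by linarith
  have e4 : qf A (gv (Fin.cons 1 x : Fin (m + 1) → ℝ)) =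
      (d ^ 2 * qf A (gv (Fin.cons 1 x : Fin (m + 1) → ℝ))) * (d⁻¹) ^ 2 := by
    field_simp
  rw [e4]
  exact mul_le_mul_of_nonneg_right e3 (by positivity)

/-- probabilities which are eventually at most `e` for all `e`, with monotone thresholds -/
theorem tendsto_of_le {F : ℕ → FSp} {E : ℝ → ∀ k, (F k).Ω → Prop} (hE : ∀ e e' : ℝ, 0 < e → e ≤ e' →
    ∀ k ω, E e k ω → E e' k ω) (h : ∀ e : ℝ, 0 < e → ∀ᶠ k in UF, (F k).pb (fun ω => ¬ E e k ω) ≤ e)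
    (e : ℝ) (he : 0 < e) : Tendsto (fun k => (F k).pb (fun ω => ¬ E e k ω)) UF (𝓝 0) := by
  rw [Metric.tendsto_nhds]
  intro δ hδ
  have h1 : 0 < min e (δ / 2) := lt_min he (by linarith)
  filter_upwards [h _ h1] with k hk
  have h2 : (F k).pb (fun ω => ¬ E e k ω) ≤ (F k).pb (fun ω => ¬ E (min e (δ / 2)) k ω) := by
    apply FSp.pb_mono
    intro ω _ h3 h4
    exact h3 (hE _ _ h1 (min_le_left _ _) k ω h4)
  have h3 : (F k).pb (fun ω => ¬ E e k ω) ≤ δ / 2 := (h2.trans hk).trans (min_le_right _ _)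
  rw [Real.dist_eq, sub_zero, abs_of_nonneg (FSp.pb_nonneg _ _)]
  linarith

/-- LINE: the form is bounded at all points of the line of the factor in the window -/
theorem line_bd (hf : Fac s s') {D : ℕ} {c : ℝ} (h0 : 0 ≤ c) (h1 : c < 1) {l : Lab S}
    (hl : Nul S (fun k => (l k).leak (cA s c k)))
    (A : ∀ k, (l k).T.Ω → Matrix (Mon (q + 1) D) (Mon (q + 1) D) ℝ)
    (hA : ∀ᶠ k in UF, ∀ ω, (l k).T.μ ω ≠ 0 → PdM (A k ω))
    (hV : ∀ᶠ k in UF, ∀ ω ω', (l k).T.μ ω ≠ 0 → (l k).T.μ ω' ≠ 0 → (l k).V ω ω' → (l k).T.Z ω ω' → A k ω = A k ω')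
    (hφ : ∀ e : ℝ, 0 < e → ∀ᶠ k in UF, (l k).T.pb (fun ω =>
      ¬ sph s' D k ((l k).p.π ω) (A k ω) ≤ 2 ^ (e * (S.F k).n)) ≤ e)
    (L : ℕ → ℝ) (hL : S.Sub L) (e : ℝ) (he : 0 < e) :
    Tendsto (fun k => (l k).T.pb (fun ω => ¬ ∀ r, |r - s.t.v k ((l k).p.π ω) 0| ≤ L k * S.dl c k →
      phi (S.dl 1 k) (A k ω) (pl (s'.a.v k ((l k).p.π ω)) (s'.x.v k ((l k).p.π ω)) r) ≤
        2 ^ (e * (S.F k).n))) UF (𝓝 0) := by
  obtain ⟨K', hK', hT⟩ := line_phi hf h0 h1 hl A hA hV L hL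
  have e2 : 0 < e / 2 := by linarith
  have hφ' := tendsto_of_le (F := fun k => (l k).T) (E := fun e k ω =>
    sph s' D k ((l k).p.π ω) (A k ω) ≤ 2 ^ (e * (S.F k).n)) (by
      intro a b _ hab k ω h
      exact h.trans (Real.rpow_le_rpow_of_exponent_le (by norm_num)
        (mul_le_mul_of_nonneg_right hab (S.F k).pos.le))) hφ (e / 2) e2
  have hT' : Tendsto (fun k => (l k).T.pb (fun ω => ¬ ∀ r, |r - s.t.v k ((l k).p.π ω) 0| ≤ L k * S.dl c k →
      phi (S.dl 1 k) (A k ω) (pl (s'.a.v k ((l k).p.π ω)) (s'.x.v k ((l k).p.π ω)) r) ≤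
        K' k * sph s' D k ((l k).p.π ω) (A k ω))) UF (𝓝 0) := hT
  have hsum := hφ'.add hT'
  rw [add_zero] at hsum
  refine tendsto_of_tendsto_of_tendsto_of_le_of_le' tendsto_const_nhds hsum
    (Eventually.of_forall fun k => FSp.pb_nonneg _ _) ?_
  filter_upwards [hK'.eventually_le e2, hK'.1, hA] with k hk hk0 hAk
  refine le_trans (FSp.pb_mono _ ?_) (pb_or _ _ _)
  intro ω hω hE
  by_contra hcon
  rw [not_or, not_not, not_not] at hcon
  apply hE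
  intro r hr
  have h3 := hcon.2 r hr
  have hnn : 0 ≤ sph s' D k ((l k).p.π ω) (A k ω) := phi_nonneg _ (fun y => (hAk ω hω).nonneg y) _
  refine h3.trans ?_
  have h5 : K' k ≤ 2 ^ (e / 2 * (S.F k).n) := by linarith
  calc K' k * sph s' D k ((l k).p.π ω) (A k ω) ≤ 2 ^ (e / 2 * (S.F k).n) * 2 ^ (e / 2 * (S.F k).n) :=
        mul_le_mul h5 hcon.1 hnn (by positivity)
    _ = 2 ^ (e * (S.F k).n) := by
        rw [← Real.rpow_add (by norm_num)]
        congr 1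
        ring

/-- LINE, affine forms: values at all points of the line of the factor in the window -/
theorem line_val (hf : Fac s s') {D : ℕ} {c : ℝ} (h0 : 0 ≤ c) (h1 : c < 1) {l : Lab S}
    (hl : Nul S (fun k => (l k).leak (cA s c k)))
    (A : ∀ k, (l k).T.Ω → Matrix (Mon (q + 1) D) (Mon (q + 1) D) ℝ)
    (hA : ∀ᶠ k in UF, ∀ ω, (l k).T.μ ω ≠ 0 → PdM (A k ω))
    (hV : ∀ᶠ k in UF, ∀ ω ω', (l k).T.μ ω ≠ 0 → (l k).T.μ ω' ≠ 0 → (l k).V ω ω' → (l k).T.Z ω ω' → A k ω = A k ω')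
    (hφ : ∀ e : ℝ, 0 < e → ∀ᶠ k in UF, (l k).T.pb (fun ω =>
      ¬ sph s' D k ((l k).p.π ω) (A k ω) ≤ 2 ^ (e * (S.F k).n)) ≤ e)
    (L : ℕ → ℝ) (hL : S.Sub L) (e : ℝ) (he : 0 < e) :
    Tendsto (fun k => (l k).T.pb (fun ω => ¬ ∀ r, |r - s.t.v k ((l k).p.π ω) 0| ≤ L k * S.dl c k →
      qf (A k ω) (vv (pl (s'.a.v k ((l k).p.π ω)) (s'.x.v k ((l k).p.π ω)) r)) ≤
        2 ^ (e * (S.F k).n))) UF (𝓝 0) := by
  refine tendsto_of_tendsto_of_tendsto_of_le_of_le' tendsto_const_nhds (line_bd hf h0 h1 hl A hA hV hφ L hL e he)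
    (Eventually.of_forall fun k => FSp.pb_nonneg _ _) ?_
  filter_upwards [hA] with k hAk
  apply FSp.pb_mono
  intro ω hω hE hcon
  apply hE
  intro r hr
  exact (qf_vv_le (fun y => (hAk ω hω).nonneg y) _ _).trans (hcon r hr)

/-- LINE, affine forms: the velocity of the line of the factor -/
theorem line_vel (hf : Fac s s') {c : ℝ} (h0 : 0 ≤ c) (h1 : c < 1) {l : Lab S}
    (hl : Nul S (fun k => (l k).leak (cA s c k)))
    (A : ∀ k, (l k).T.Ω → Matrix (Mon (q + 1) 1) (Mon (q + 1) 1) ℝ)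
    (hA : ∀ᶠ k in UF, ∀ ω, (l k).T.μ ω ≠ 0 → PdM (A k ω))
    (hV : ∀ᶠ k in UF, ∀ ω ω', (l k).T.μ ω ≠ 0 → (l k).T.μ ω' ≠ 0 → (l k).V ω ω' → (l k).T.Z ω ω' → A k ω = A k ω')
    (hφ : ∀ e : ℝ, 0 < e → ∀ᶠ k in UF, (l k).T.pb (fun ω =>
      ¬ sph s' 1 k ((l k).p.π ω) (A k ω) ≤ 2 ^ (e * (S.F k).n)) ≤ e)
    (e : ℝ) (he : 0 < e) :
    Tendsto (fun k => (l k).T.pb (fun ω =>
      ¬ qf (A k ω) (gv (Fin.cons 1 (s'.x.v k ((l k).p.π ω)) : Fin (q + 1) → ℝ)) ≤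
        2 ^ (2 * (c + e) * (S.F k).n))) UF (𝓝 0) := by
  refine tendsto_of_tendsto_of_tendsto_of_le_of_le' tendsto_const_nhds
    (line_val hf h0 h1 hl A hA hV hφ (fun _ => 1) (S.Sub_const zero_le_one) e he)
    (Eventually.of_forall fun k => FSp.pb_nonneg _ _) ?_
  filter_upwards [hA, (S.Sub_const (show (0 : ℝ) ≤ 4 by norm_num)).eventually_le he] with k hAk h4
  apply FSp.pb_mono
  intro ω hω hE hcon
  apply hE
  have hd := S.dl_pos c k
  have g1 := hcon (s.t.v k ((l k).p.π ω) 0) (by rw [sub_self, abs_zero, one_mul]; exact hd.le)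
  have g2 := hcon (s.t.v k ((l k).p.π ω) 0 + S.dl c k) (by
    rw [add_sub_cancel_left, abs_of_pos hd, one_mul])
  have g3 := vel_le (fun y => (hAk ω hω).nonneg y) (s'.a.v k ((l k).p.π ω)) (s'.x.v k ((l k).p.π ω))
    (s.t.v k ((l k).p.π ω) 0) (S.dl c k) (2 ^ (e * (S.F k).n)) hd g1 g2
  refine g3.trans ?_
  have e1 : (S.dl c k)⁻¹ ^ 2 = 2 ^ (2 * c * (S.F k).n) := by
    unfold Sp.dl
    rw [Real.rpow_neg (by norm_num), inv_inv, ← Real.rpow_natCast, ← Real.rpow_mul (by norm_num)]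
    congr 1
    push_cast
    ring
  have e2 : (2 : ℝ) ^ (2 * (c + e) * (S.F k).n) = 2 ^ (e * (S.F k).n) * 2 ^ (e * (S.F k).n) *
      2 ^ (2 * c * (S.F k).n) := by
    rw [← Real.rpow_add (by norm_num), ← Real.rpow_add (by norm_num)]
    congr 1
    ring
  rw [e1, e2]
  apply mul_le_mul_of_nonneg_right _ (by positivity)
  apply mul_le_mul_of_nonneg_right _ (by positivity)
  linarith

end

end Pool.Agent.Helper93.LIP
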