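import Pool.Agent.Helper93.LIP.Line
import Pool.Agent.Helper39.LIP.St

/-! The row LINE for the data `XO`. -/

set_option autoImplicit false

namespace Pool.Agent.Helper93.LIP

open Finset Filter Topology Matrix Pool.Agent.Helper69.RK Pool.Agent.Helper31.EC Pool.Agent.Helper40.EL
open Pool.Agent.Helper31.EC.Sp
open Pool.Agent.Helper95.LF Pool.Agent.Helper89.LX Pool.Agent.Helper3.LF Pool.Agent.Helper3.SG
open Pool.Agent.Helper39.LIP

noncomputable section

variable {S : Sp} {m q : ℕ} {s : Sys S m} {s' : Sys S q} {ι : Type}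
  {x : ∀ k, FD (S.F k) ι} {x' : ∀ k, FD (S.F k) (Mon (q + 1) 1)} {c : ℝ}

/-- the forms of `X` are bounded along the line of the factor in the window -/
theorem XO_bd (O : XO s s' x x' c) (hf : Fac s s') (h0 : 0 ≤ c) (h1 : c < 1) (L : ℕ → ℝ) (hL : S.Sub L)
    (e : ℝ) (he : 0 < e) :
    Tendsto (fun k => (O.X k).l.T.pb (fun ω => ¬ ∀ r, |r - s.t.v k ((O.X k).l.p.π ω) 0| ≤ L k * S.dl c k →
      phi (S.dl 1 k) ((O.X k).g ω) (pl (s'.a.v k ((O.X k).l.p.π ω)) (s'.x.v k ((O.X k).l.p.π ω)) r) ≤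
        2 ^ (e * (S.F k).n))) UF (𝓝 0) :=
  line_bd hf h0 h1 (l := fun k => (O.X k).l) O.lA (fun k => (O.X k).g)
    (by filter_upwards [O.cpd] with k hk ω hω using (hk ω hω).pdM)
    (Eventually.of_forall fun k ω ω' h h' hV hZ => ((O.X k).meas ω ω' h h' hV hZ).1) O.phi L hL e he

/-- values of the forms of `X` along the line -/
theorem XO_val (O : XO s s' x x' c) (hf : Fac s s') (h0 : 0 ≤ c) (h1 : c < 1) (L : ℕ → ℝ) (hL : S.Sub L)
    (e : ℝ) (he : 0 < e) :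
    Tendsto (fun k => (O.X k).l.T.pb (fun ω => ¬ ∀ r, |r - s.t.v k ((O.X k).l.p.π ω) 0| ≤ L k * S.dl c k →
      qf ((O.X k).g ω) (vv (pl (s'.a.v k ((O.X k).l.p.π ω)) (s'.x.v k ((O.X k).l.p.π ω)) r)) ≤
        2 ^ (e * (S.F k).n))) UF (𝓝 0) :=
  line_val hf h0 h1 (l := fun k => (O.X k).l) O.lA (fun k => (O.X k).g)
    (by filter_upwards [O.cpd] with k hk ω hω using (hk ω hω).pdM)
    (Eventually.of_forall fun k ω ω' h h' hV hZ => ((O.X k).meas ω ω' h h' hV hZ).1) O.phi L hL e he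

/-- velocity of the line for the forms of `X` -/
theorem XO_vel (O : XO s s' x x' c) (hf : Fac s s') (h0 : 0 ≤ c) (h1 : c < 1) (e : ℝ) (he : 0 < e) :
    Tendsto (fun k => (O.X k).l.T.pb (fun ω =>
      ¬ qf ((O.X k).g ω) (gv (Fin.cons 1 (s'.x.v k ((O.X k).l.p.π ω)) : Fin (q + 1) → ℝ)) ≤
        2 ^ (2 * (c + e) * (S.F k).n))) UF (𝓝 0) :=
  line_vel hf h0 h1 (l := fun k => (O.X k).l) O.lA (fun k => (O.X k).g)
    (by filter_upwards [O.cpd] with k hk ω hω using (hk ω hω).pdM)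
    (Eventually.of_forall fun k ω ω' h h' hV hZ => ((O.X k).meas ω ω' h h' hV hZ).1) O.phi e he

end

end Pool.Agent.Helper93.LIP
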